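import Pool.Agent.U566.BMEqui3

/-!
# Breuil–Mézard multiplicities for Hodge types with congruent weights

`S` is the set of embeddings `K → E`, `q = p^f` the size of the residue field `k` of `K`,
`j : S → ZMod f` records the embedding of `k` induced by `σ ∈ S`.  `T` is the set of inertial types;
`D` records for each type the Brauer character `θ τ` of the reduction of `σ(τ)`, the dimension of
`σ(τ)` and its central character on `F_q^×`.  `Z τ μ` is the Hilbert–Samuel multiplicity
`e(R^{λ,τ}/ϖ)` with labelled Hodge–Tate weights `μ = λ + (d-1, …, 0)` (regular); the values of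
`Z τ` at other tuples play no role.  `N` is any multiple of the numbers `q^k - 1`, `1 ≤ k ≤ d`.
-/

namespace Pool.Agent.Results.MP_7cb106_nt.CongruentHodgeTypes

open U566.BM

/-- (1) All integral relations between the reductions for the pairs `(μ, τ)` with `μ` regular and,
at each embedding, all weights congruent modulo `N` hold between the multiplicities if and only if,
for any two such pairs with the same central character on `F_q^×`, the multiplicities are
proportional to the numbers `dim σ(τ) ∏_σ ∏_{i<l} (μ_{σ,i} - μ_{σ,l})`, that is, to the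
dimensions.  (2) In particular this is so if integers `Y k` satisfy the Breuil–Mézard identities for
these pairs. -/
theorem result (p f d : ℕ) [Fact p.Prime] (hd : 0 < d) {S : Type} [Fintype S] [DecidableEq S]
    [Nonempty S] (j : S → ZMod f) {T : Type} (D : TypeChars p f d T) (Z : T → Wt S d → ℤ)
    (N : ℕ) (hN : ∀ k, 1 ≤ k → k ≤ d → ((p ^ f) ^ k - 1) ∣ N) :
    (CongRelations p f j N D.θ Z ↔
      ∀ (μ μ' : Reg S d), CongN N μ.1 → CongN N μ'.1 → ∀ τ τ' : T,
        wtChar p f j μ.1 * D.ω τ = wtChar p f j μ'.1 * D.ω τ' →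
        ((D.deg τ' : ℤ) * prodDiff μ'.1) * Z τ μ.1 = ((D.deg τ : ℤ) * prodDiff μ.1) * Z τ' μ'.1) ∧
    ∀ (W : Type) [Fintype W] (β : W → (Cls p f d → WittVector p (AlgebraicClosure (ZMod p))))
      (n : W → Reg S d → T → ℤ) (Y : W → ℤ), LinearIndependent ℤ β →
      (∀ (μ : Reg S d) (τ : T), brauer p f j μ.1 * D.θ τ = ∑ k, n k μ τ • β k) →
      (∀ μ : Reg S d, CongN N μ.1 → ∀ τ : T, Z τ μ.1 = ∑ k, n k μ τ * Y k) →
      ∀ (μ μ' : Reg S d), CongN N μ.1 → CongN N μ'.1 → ∀ τ τ' : T,
        wtChar p f j μ.1 * D.ω τ = wtChar p f j μ'.1 * D.ω τ' →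
        ((D.deg τ' : ℤ) * prodDiff μ'.1) * Z τ μ.1
          = ((D.deg τ : ℤ) * prodDiff μ.1) * Z τ' μ'.1 := by
  have key := cong_iff (S := S) (j := j) D hd hN Z
  simp only [smul_eq_mul] at key
  refine ⟨key, fun W _ β n Y hβ hn hY => key.1 ?_⟩
  exact cong_of_identities hβ n hn Y (fun μ hμ τ => by simpa only [smul_eq_mul] using hY μ hμ τ)

end Pool.Agent.Results.MP_7cb106_nt.CongruentHodgeTypes
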