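import Pool.Agent.U566.BMRel

/-!
# The generalised Breuil–Mézard conjecture: explicit multiplicities and positivity

`S` is the set of embeddings `K → E`, `q = p^f` the size of the residue field `k` of `K`,
`j : S → ZMod f` records the embedding of `k` induced by `σ ∈ S`, and `s` chooses an element of `S`
above each embedding of `k`.  `T` is the set of inertial types and `Z τ μ` is the Hilbert–Samuel
multiplicity `e(R^{λ,τ}/ϖ)` with labelled Hodge–Tate weights `μ = λ + (n-1, …, 0)` for `μ` regular,
extended to all integer tuples `μ` by the sign rule `IsAlt`.  Here `n = m + 1`.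
-/

namespace Pool.Agent.Results.MP_7cb106_nt.ExplicitMultiplicities

open U566.BM

/-- First part (no assumption on the representation side, `θ τ` the Brauer character of the
reduction of `σ(τ)`): all integral relations between the reductions for pairs (Hodge type, inertial
type) hold between the multiplicities if and only if these satisfy the twist equations, one
reduction equation for each inertial type and each unrestricted regular tuple, and these relations
hold for the `q^m (q-1)` normalised restricted tuples.  Second part (`D` the Serre weights and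
types): non-negative integers `Y k` with the Breuil–Mézard identities for all pairs exist if and
only if the multiplicities satisfy the twist equations, the same reduction equations, one change of
type relation for each type and each normalised restricted tuple, and the finitely many numbers
`Predicted` are non-negative.  These numbers are then the `Y k`. -/
theorem result (p f m : ℕ) [Fact p.Prime] [NeZero f] {S : Type} [Fintype S] [DecidableEq S]
    (j : S → ZMod f) (s : ZMod f → S) (hs : ∀ k, j (s k) = k)
    {T : Type} (Z : T → Wt S (m + 1) → ℤ) (hZ : ∀ τ, IsAlt (Z τ)) :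
    (∀ θ : T → (Cls p f (m + 1) → WittVector p (AlgebraicClosure (ZMod p))),
      PairRelations p f j θ Z ↔
        (∀ τ, TwistK p j (Z τ)) ∧ (∀ τ, OneEqK p j s (Z τ)) ∧ BaseRelations p f j s θ Z) ∧
    ∀ (W : Type) [Fintype W] (D : TypedData p f (m + 1) j T W),
      ((∃ Y : W → ℕ, ∀ (μ : Reg S (m + 1)) (τ : T), Z τ μ.1 = ∑ k, D.n k μ τ * (Y k : ℤ)) ↔
        (∀ τ, TwistK p j (Z τ)) ∧ (∀ τ, OneEqK p j s (Z τ)) ∧ TypeEq D s Z ∧
          ∀ k y, Predicted D s Z k y → 0 ≤ y) ∧
      (∀ (τ : T) (b : NIdx m p f), ∃! c : NIdx m p f → ℤ,
        brauer p f j (hbK j s b) * D.θ τ = ∑ b', c b' • brauer p f j (hbK j s b')) ∧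
      (∀ k, ∃! y, Predicted D s Z k y) ∧
      ∀ Y : W → ℤ, (∀ (μ : Reg S (m + 1)) (τ : T), Z τ μ.1 = ∑ k, D.n k μ τ * Y k) →
        ∀ k y, Predicted D s Z k y → Y k = y := by
  refine ⟨fun θ => pairRel_iff hs θ hZ, fun W _ D => ?_⟩
  have h := typed_iff D hs hZ {y : ℤ | 0 ≤ y}
  refine ⟨⟨?_, ?_⟩, exists_unique_typeK D hs, fun k => predicted_exists D hs k,
    fun Y hY k y hy => forcedK D hZ Y (by simpa only [smul_eq_mul] using hY) k y hy⟩
  · rintro ⟨Y, hY⟩
    exact h.1 ⟨fun k => (Y k : ℤ), fun k => Int.natCast_nonneg _,
      by simpa only [smul_eq_mul] using hY⟩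
  · intro hh
    obtain ⟨Y, hP, hY⟩ := h.2 hh
    refine ⟨fun k => (Y k).toNat, fun μ τ => ?_⟩
    rw [hY μ τ]
    refine Finset.sum_congr rfl fun k _ => ?_
    rw [smul_eq_mul, Int.toNat_of_nonneg (hP k)]

end Pool.Agent.Results.MP_7cb106_nt.ExplicitMultiplicities
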