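import Pool.Agent.U566.BMDeep

/-!
# Polynomial behaviour of the Breuil–Mézard multiplicities and reduction to deep Hodge types

`S` is the set of embeddings `K → E`, `q = p^f` the size of the residue field `k` of `K`,
`j : S → ZMod f` records the embedding of `k` induced by `σ ∈ S`.  `T` is the set of inertial types
and `Z τ μ` is the Hilbert–Samuel multiplicity `e(R^{λ,τ}/ϖ)` with labelled Hodge–Tate weights
`μ = λ + (d-1, …, 0)` (regular); the values of `Z τ` at other tuples play no role.  `N` is any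
positive multiple of the numbers `q^k - 1`, `1 ≤ k ≤ d`, and `C` any bound.
-/

namespace Pool.Agent.Results.MP_7cb106_nt.PolynomialMultiplicities

open U566.BM

/-- (1) If all integral relations between the reductions for pairs (Hodge type, inertial type) hold
between the multiplicities, then for each type these are polynomial of degree at most
`|s| d(d-1)/2` in `k` along `μ + k N v`, `v` non-increasing at each embedding and supported on the
set `s` of embeddings.  (2) Non-negative integers `Y k` satisfying the Breuil–Mézard identities for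
all pairs exist if and only if they exist for the tuples all of whose gaps are at least `C` and the
multiplicities are polynomial of degree at most `d(d-1)/2` along the progressions `μ + k N ρ_σ`;
the same numbers serve. -/
theorem result (p f d : ℕ) [Fact p.Prime] [NeZero f] {S : Type} [Fintype S] [DecidableEq S]
    (j : S → ZMod f) {T : Type} (Z : T → Wt S d → ℤ)
    (N : ℕ) (hN0 : 0 < N) (hN : ∀ k, 1 ≤ k → k ≤ d → ((p ^ f) ^ k - 1) ∣ N) (C : ℕ) :
    (∀ θ : T → (Cls p f d → WittVector p (AlgebraicClosure (ZMod p))),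
      PairRelations p f j θ Z →
        ∀ (τ : T) (μ : Reg S d) (s : Finset S) (v : S → Fin d → ℕ), (∀ σ, Antitone (v σ)) →
          (∀ σ, σ ∉ s → ∀ i, v σ i = 0) →
            diffSum (Z τ) (s.card * (d * (d - 1) / 2) + 1) N v μ.1 = 0) ∧
    ∀ (W : Type) [Fintype W] (D : PairData p f d j T W),
      ((∃ Y : W → ℕ, ∀ (μ : Reg S d) (τ : T), Z τ μ.1 = ∑ k, D.n k μ τ * (Y k : ℤ)) ↔
        (∃ Y : W → ℕ, ∀ μ : Reg S d, Deep C μ.1 → ∀ τ : T,
          Z τ μ.1 = ∑ k, D.n k μ τ * (Y k : ℤ)) ∧ RhoPoly N Z) ∧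
      ∀ Y : W → ℤ, (∀ (μ : Reg S d) (τ : T), Z τ μ.1 = ∑ k, D.n k μ τ * Y k) ↔
        (∀ μ : Reg S d, Deep C μ.1 → ∀ τ : T, Z τ μ.1 = ∑ k, D.n k μ τ * Y k) ∧
          RhoPoly N Z := by
  refine ⟨fun _ h τ μ s _ hv hv0 => poly_of_rel h hN τ μ s hv hv0, fun W _ D => ?_⟩
  have key : ∀ Y : W → ℤ, (∀ (μ : Reg S d) (τ : T), Z τ μ.1 = ∑ k, D.n k μ τ * Y k) ↔
        (∀ μ : Reg S d, Deep C μ.1 → ∀ τ : T, Z τ μ.1 = ∑ k, D.n k μ τ * Y k) ∧
          RhoPoly N Z := fun Y => by simpa only [smul_eq_mul] using deep_iff D hN0 hN C Y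
  refine ⟨⟨?_, ?_⟩, key⟩
  · rintro ⟨Y, hY⟩
    obtain ⟨h1, h2⟩ := (key fun k => (Y k : ℤ)).1 hY
    exact ⟨⟨Y, h1⟩, h2⟩
  · rintro ⟨⟨Y, hY⟩, h2⟩
    exact ⟨Y, (key fun k => (Y k : ℤ)).2 ⟨hY, h2⟩⟩

end Pool.Agent.Results.MP_7cb106_nt.PolynomialMultiplicities
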