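import Pool.Agent.U566.BMRestr

/-!
# The Breuil–Mézard conjecture reduces to restricted Hodge types and one equation for each other one

`S` is the set of embeddings `K → E`, `q = p^f` the size of the residue field `k` of `K`,
`j : S → ZMod f` records the embedding of `k` induced by `σ ∈ S`, and `s` chooses an element of `S`
above each embedding of `k`.  `T` is the set of inertial types, `W` the set of Serre weights, and
`Z τ μ` is the Hilbert–Samuel multiplicity `e(R^{λ,τ}/ϖ)` with labelled Hodge–Tate weights
`μ = λ + (n-1, …, 0)` for `μ` regular, extended to all integer tuples `μ` by the sign rule `IsAlt`.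
A regular tuple is restricted if the gaps between consecutive Hodge–Tate weights are at most `p` at
the chosen embeddings and equal to `1` at the others.
-/

namespace Pool.Agent.Results.MP_7cb106_nt.RestrictedHodgeTypes

open U566.BM

/-- Numbers `Y k` (one for each Serre weight) satisfy the Breuil–Mézard identities for all pairs
(Hodge type, inertial type) if and only if they satisfy them for the restricted Hodge types, and for
each inertial type and each unrestricted Hodge type at least one of its reduction equations, which
do not involve `Y`, holds. -/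
theorem result (p f d : ℕ) [Fact p.Prime] [NeZero f] {S : Type} [Fintype S] [DecidableEq S]
    (j : S → ZMod f) (s : ZMod f → S) (hs : ∀ k, j (s k) = k)
    {T W : Type} [Fintype W] (D : PairData p f d j T W)
    {M : Type} [AddCommGroup M] [IsAddTorsionFree M] (Z : T → Wt S d → M)
    (hZ : ∀ τ, IsAlt (Z τ)) (Y : W → M) :
    (∀ (μ : Reg S d) (τ : T), Z τ μ.1 = ∑ k, D.n k μ τ • Y k) ↔
      (∀ μ : Reg S d, Restricted p j s μ.1 → ∀ τ : T, Z τ μ.1 = ∑ k, D.n k μ τ • Y k) ∧
      ∀ (τ : T) (μ : Reg S d), ¬ Restricted p j s μ.1 → ∃ (σ : S) (a b : Fin d),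
        (a : ℕ) + 1 = b ∧ (gapBound p j s σ : ℤ) < μ.1 σ a - μ.1 σ b ∧
          ReduceEq p j s (Z τ) μ.1 σ b := by
  constructor
  · intro h
    refine ⟨fun μ _ τ => h μ τ, fun τ μ hμ => ?_⟩
    unfold Restricted at hμ
    push Not at hμ
    obtain ⟨σ, a, b, hab, hg⟩ := hμ
    exact ⟨σ, a, b, hab, hg, imp_restr D hs hZ Y h τ μ.1 σ b⟩
  · rintro ⟨h1, h2⟩ μ τ
    exact restr_imp D hs hZ Y h1 h2 μ τ

end Pool.Agent.Results.MP_7cb106_nt.RestrictedHodgeTypes
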